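import Mathlib
import Pool.Prelude.Def_F_c31e40fa
import Pool.Agent.W677.MC8

set_option autoImplicit false

open Filter Topology N62a1eb23

namespace Pool.Agent.Results.MP_fcb70f_an.CoefficientWindows

open Pool.Agent.H713R2

/-- The Laurent coefficients of the exterior conformal map of the Multibrot set of degree
`d ≥ 3`: every window `[N, N ^ A)` carries at least `c / log N` of the absolute sum and
`c / (log N) ^ 3` of the area series, and the weighted area series with weight `(log m) ^ 3`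
diverges. -/
theorem result (d : ℕ) (hd : 3 ≤ d) :
    (∃ (ψ : ℂ → ℂ) (b : ℕ → ℂ), IsExteriorMap (multibrotSet d) ψ ∧ HasLaurent ψ b) ∧
    ∀ (ψ : ℂ → ℂ) (b : ℕ → ℂ), IsExteriorMap (multibrotSet d) ψ → HasLaurent ψ b →
      (∃ (c : ℝ) (A : ℕ), 0 < c ∧ ∀ N : ℕ, 2 ≤ N →
        c / Real.log N ≤ ∑ m ∈ Finset.Ico N (N ^ A), ‖b m‖ ∧
        c / Real.log N ^ 3 ≤ ∑ m ∈ Finset.Ico N (N ^ A), (m : ℝ) * ‖b m‖ ^ 2) ∧
      ¬ Summable (fun m : ℕ => (m : ℝ) * ‖b m‖ ^ 2 * Real.log m ^ 3) := by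
  have hd2 : 2 ≤ d := by omega
  obtain ⟨β, hβ⟩ := exists_beta (d := d) hd2
  refine ⟨⟨_, _, exteriorMap_of_beta hβ, laurent_of_beta hβ⟩, ?_⟩
  intro ψ b hψ hb
  obtain ⟨c, A, hc, -, h⟩ := Pool.Agent.W677.MC.window_final hd2 hψ hb
  refine ⟨⟨c, A, hc, fun N hN => ⟨(h N hN).1, (h N hN).2.1⟩⟩, ?_⟩
  exact Pool.Agent.W677.MB.not_summable_of_window hc (n := fun N => N ^ A)
    (fun N hN => (h N hN).2.2)

end Pool.Agent.Results.MP_fcb70f_an.CoefficientWindows
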