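import Mathlib
import Pool.Prelude.Def_F_c31e40fa
import Pool.Agent.W749.ChanC

set_option autoImplicit false

open Filter N62a1eb23

namespace Pool.Agent.Results.MP_fcb70f_an.IteratedLogChannels

/-- The Multibrot sets are not uniformly locally connected at the scale `1 / n`, to all
iterated-logarithmic orders: with one absolute constant `C`, for every `k` and all large `n` there
are two points of `M_n` at distance at most `C / (n log n loglog n ⋯ log^[k] n)` such that every
connected subset of `M_n` joining them has diameter at least `(log^[k+1] n - C) / n`. -/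
theorem result : ∃ C : ℝ, 0 < C ∧ ∀ k : ℕ, ∀ᶠ n : ℕ in atTop,
    ∃ x ∈ multibrotSet n, ∃ y ∈ multibrotSet n,
      dist x y ≤ C / (n * ∏ i ∈ Finset.range k, Real.log^[i + 1] (n : ℝ)) ∧
      ∀ E ⊆ multibrotSet n, IsConnected E → x ∈ E → y ∈ E →
        (Real.log^[k + 1] (n : ℝ) - C) / n ≤ Metric.diam E :=
  Pool.Agent.W749.Chan.main

end Pool.Agent.Results.MP_fcb70f_an.IteratedLogChannels
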